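import Pool.Agent.R711.Basis

/-!
The two-sorted algebra of a finitely generated clonoid between modules over finite rings has a
finite equational basis.
-/

set_option autoImplicit false

namespace Pool.Agent.Results.MP_2f8e94_al.FiniteBasis

open Pool.Agent.R711.Words Pool.Agent.R711.Core Pool.Agent.R711.Terms Pool.Agent.R711.Basis

universe u v w p q s t

variable {RA : Type u} {RB : Type v} {ι : Type w} {ar : ι → ℕ} [Ring RA] [Ring RB]
  {A : Type p} [AddCommGroup A] [Module RA A] {B : Type q} [AddCommGroup B] [Module RB B]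

/-- The identity `e` of sort 1 is true in the algebra with modules `A` and `B`. -/
def Holds1 (A : Type p) [AddCommGroup A] [Module RA A] (e : T1 RA × T1 RA) : Prop :=
  ∀ x : ℕ → A, e.1.eval x = e.2.eval x

/-- The identity `e` of sort 2 is true in the algebra with modules `A` and `B` and
operations `f`. -/
def Holds2 (f : ∀ i, (Fin (ar i) → A) → B) (e : T2 RA RB ι ar × T2 RA RB ι ar) : Prop :=
  ∀ (x : ℕ → A) (y : ℕ → B), e.1.eval f x y = e.2.eval f x y

/-- Some finite set of true identities derives every true identity. -/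
def HasFiniteBasis (RA : Type u) (RB : Type v) {ι : Type w} {ar : ι → ℕ} [Ring RA] [Ring RB]
    {A : Type p} [AddCommGroup A] [Module RA A] {B : Type q} [AddCommGroup B] [Module RB B]
    (f : ∀ i, (Fin (ar i) → A) → B) : Prop :=
  ∃ (Γ₁ : Set (T1 RA × T1 RA)) (Γ₂ : Set (T2 RA RB ι ar × T2 RA RB ι ar)),
    Γ₁.Finite ∧ Γ₂.Finite ∧ (∀ e ∈ Γ₁, Holds1 A e) ∧ (∀ e ∈ Γ₂, Holds2 f e) ∧
    (∀ e : T1 RA × T1 RA, Holds1 A e → Der1 Γ₁ e.1 e.2) ∧
    (∀ e : T2 RA RB ι ar × T2 RA RB ι ar, Holds2 f e → Der2 Γ₁ Γ₂ e.1 e.2)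

theorem ann_of_sum {R : Type*} [Ring R] {C : Type*} [AddCommGroup C] [Module R C] {k : ℕ}
    (c : Fin k → R) (h : ∀ x : ℕ → C, ∑ j, c j • x j = 0) (j : Fin k) (a : C) : c j • a = 0 := by
  have h1 := h (fun n => if n = j then a else 0)
  rw [Finset.sum_eq_single j] at h1
  · simpa using h1
  · intro j' _ hj'
    rw [if_neg, smul_zero]
    intro h2
    exact hj' (Fin.ext h2)
  · simp

theorem sem1 {P1 : Type s} [AddCommGroup P1] [Module RA P1]
    (hP : ∀ r : RA, (∀ a : A, r • a = 0) → ∀ z : P1, r • z = 0)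
    (e : T1 RA × T1 RA) (he : Holds1 A e) (x : ℕ → P1) : e.1.eval x = e.2.eval x := by
  obtain ⟨a, b⟩ := e
  let k := max (bd1 a) (bd1 b)
  have h1 : ∀ j : Fin k, ∀ z : A, (lin1 a j - lin1 b j) • z = 0 := by
    apply ann_of_sum (fun j : Fin k => lin1 a j - lin1 b j)
    intro x
    have h2 := he x
    simp only at h2
    rw [eval1_eq x a k (le_max_left _ _), eval1_eq x b k (le_max_right _ _)] at h2
    simp only [sub_smul, Finset.sum_sub_distrib, h2, sub_self]
  simp only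
  rw [eval1_eq x a k (le_max_left _ _), eval1_eq x b k (le_max_right _ _), ← sub_eq_zero,
    ← Finset.sum_sub_distrib]
  refine Finset.sum_eq_zero fun j _ => ?_
  rw [← sub_smul]
  exact hP _ (h1 j) _

/-- The combinations of operations which vanish identically. -/
def van (RA : Type u) (RB : Type v) {ι : Type w} {ar : ι → ℕ} [Ring RA] [Ring RB]
    {A : Type p} [AddCommGroup A] [Module RA A] {B : Type q} [AddCommGroup B] [Module RB B]
    [Fintype RA] [Fintype ι] {n : ℕ} (hn : ∀ i, ar i ≤ n) (f : ∀ i, (Fin (ar i) → A) → B)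
    (k : ℕ) : AddSubgroup ((Fin k → Fin n → RA) → ι → RB) where
  carrier := {c | ∀ x : Fin k → A, ev hn f c x = 0}
  zero_mem' := fun x => ev_zero hn f x
  add_mem' := fun {c d} hc hd x => by rw [ev_add, hc x, hd x, add_zero]
  neg_mem' := fun {c} hc x => by rw [ev_neg, hc x, neg_zero]

theorem sem2 [Fintype RA] [Fintype ι] {n : ℕ} (hn : ∀ i, ar i ≤ n)
    (f : ∀ i, (Fin (ar i) → A) → B)
    {P1 : Type s} [AddCommGroup P1] [Module RA P1] {P2 : Type t} [AddCommGroup P2] [Module RB P2]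
    (F : ∀ i, (Fin (ar i) → P1) → P2)
    (hP : ∀ r : RB, (∀ a : B, r • a = 0) → ∀ z : P2, r • z = 0)
    (hev : ∀ k, ∀ c ∈ van RA RB hn f k, ∀ x : Fin k → P1, ev hn F c x = 0)
    (e : T2 RA RB ι ar × T2 RA RB ι ar) (he : Holds2 f e) (x : ℕ → P1) (y : ℕ → P2) :
    e.1.eval F x y = e.2.eval F x y := by
  obtain ⟨a, b⟩ := e
  let k := max (bd2 a) (bd2 b)
  have h0 : ∀ (x : ℕ → A) (y : ℕ → B),
      ∑ j : Fin k, (lin2 a j - lin2 b j) • y j + ev hn f (cf n k a - cf n k b) (fun j => x j)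
        = 0 := by
    intro x y
    have h2 := he x y
    simp only at h2
    rw [eval2_eq hn f x y a k (le_max_left _ _), eval2_eq hn f x y b k (le_max_right _ _)] at h2
    rw [sub_eq_add_neg (cf n k a), ev_add, ev_neg]
    simp only [sub_smul, Finset.sum_sub_distrib]
    rw [← sub_eq_zero] at h2
    rw [← h2]
    abel
  have h3 : cf n k a - cf n k b ∈ van RA RB hn f k := by
    intro x
    have h4 := h0 (fun m => if h : m < k then x ⟨m, h⟩ else 0) 0
    simpa using h4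
  have h1 : ∀ j : Fin k, ∀ z : B, (lin2 a j - lin2 b j) • z = 0 := by
    apply ann_of_sum (fun j : Fin k => lin2 a j - lin2 b j)
    intro y
    have h4 := h0 0 y
    rwa [h3, add_zero] at h4
  simp only
  rw [eval2_eq hn F x y a k (le_max_left _ _), eval2_eq hn F x y b k (le_max_right _ _),
    ← sub_eq_zero]
  have h5 := hev k _ h3 (fun j => x j)
  rw [sub_eq_add_neg (cf n k a), ev_add, ev_neg] at h5
  have h6 : ∑ j : Fin k, (lin2 a j - lin2 b j) • y j = 0 :=
    Finset.sum_eq_zero fun j _ => hP _ (h1 j) _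
  simp only [sub_smul, Finset.sum_sub_distrib] at h6
  have h7 : ∀ p q r s : P2, p - r = 0 → q + -s = 0 → p + q - (r + s) = 0 := by
    intro p q r s h h'
    have : p + q - (r + s) = (p - r) + (q + -s) := by abel
    rw [this, h, h', add_zero]
  exact h7 _ _ _ _ h6 h5

theorem ev_closure [Fintype RA] [Fintype ι] {n : ℕ} (hn : ∀ i, ar i ≤ n)
    {P1 : Type s} [AddCommGroup P1] [Module RA P1] {P2 : Type t} [AddCommGroup P2] [Module RB P2]
    (F : ∀ i, (Fin (ar i) → P1) → P2)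
    {I : ∀ k, AddSubgroup ((Fin k → Fin n → RA) → ι → RB)} {K l : ℕ}
    (hlow : ∀ k ≤ K, ∀ c ∈ I k, ∀ x : Fin k → P1, ev hn F c x = 0)
    (c : (Fin l → Fin n → RA) → ι → RB) (hc : c ∈ AddSubgroup.closure (gens I K l)) :
    ∀ x : Fin l → P1, ev hn F c x = 0 := by
  induction hc using AddSubgroup.closure_induction with
  | mem d hd =>
    obtain ⟨k, hk, φ, h, H, c, hc, rfl⟩ := hd
    intro x
    rw [ev_push]
    exact hlow k hk c hc _
  | zero => exact fun x => ev_zero hn _ x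
  | add a b _ _ ha hb =>
    intro x
    rw [ev_add, ha x, hb x, add_zero]
  | neg a _ ha =>
    intro x
    rw [ev_neg, ha x, neg_zero]

/-- The two-sorted algebra attached to a finite family of operations between modules over finite
rings has a finite equational basis. -/
theorem result (RA : Type u) (RB : Type v) (ι : Type w) (ar : ι → ℕ) [Ring RA] [Finite RA]
    [Ring RB] [Finite RB] [Finite ι]
    (A : Type p) [AddCommGroup A] [Module RA A] (B : Type q) [AddCommGroup B] [Module RB B]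
    (f : ∀ i, (Fin (ar i) → A) → B) :
    HasFiniteBasis RA RB f := by
  classical
  have := Fintype.ofFinite RA
  have := Fintype.ofFinite RB
  have := Fintype.ofFinite ι
  obtain ⟨n, hn⟩ := Finite.exists_le ar
  obtain ⟨K, hK⟩ := fin_gen (X := Fin n → RA) (M := ι → RB) (van RA RB hn f)
  let Γ₁ : Set (T1 RA × T1 RA) := ax1 RA ∪
    ((fun r : RA => ((.smul r (.var 0), .zero) : T1 RA × T1 RA)) '' {r | ∀ a : A, r • a = 0})
  let Γ₂ : Set (T2 RA RB ι ar × T2 RA RB ι ar) := ax2 RA RB ι ar ∪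
    (((fun r : RB => ((.smul r (.var 0), .zero) : T2 RA RB ι ar × T2 RA RB ι ar)) ''
      {r | ∀ a : B, r • a = 0}) ∪
    ⋃ k : Fin (K + 1), (fun c : (Fin (k : ℕ) → Fin n → RA) → ι → RB =>
      ((tm hn c, .zero) : T2 RA RB ι ar × T2 RA RB ι ar)) '' (van RA RB hn f (k : ℕ) : Set ((Fin (k : ℕ) → Fin n → RA) → ι → RB)))
  have hax1 : ax1 RA ⊆ Γ₁ := Set.subset_union_left
  have hax2 : ax2 RA RB ι ar ⊆ Γ₂ := Set.subset_union_left
  have hann1 : ∀ r : RA, (∀ a : A, r • a = 0) →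
      ((.smul r (.var 0), .zero) : T1 RA × T1 RA) ∈ Γ₁ := fun r hr => Or.inr ⟨r, hr, rfl⟩
  have hann2 : ∀ r : RB, (∀ a : B, r • a = 0) →
      ((.smul r (.var 0), .zero) : T2 RA RB ι ar × T2 RA RB ι ar) ∈ Γ₂ :=
    fun r hr => Or.inr (Or.inl ⟨r, hr, rfl⟩)
  have htm : ∀ k ≤ K, ∀ c ∈ van RA RB hn f k,
      ((tm hn c, .zero) : T2 RA RB ι ar × T2 RA RB ι ar) ∈ Γ₂ :=
    fun k hk c hc => Or.inr (Or.inr (Set.mem_iUnion.2 ⟨⟨k, Nat.lt_succ_of_le hk⟩, c, hc, rfl⟩))
  refine ⟨Γ₁, Γ₂, ?_, ?_, ?_, ?_, ?_, ?_⟩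
  · exact ax1_finite.union (Set.toFinite _)
  · exact ax2_finite.union ((Set.toFinite _).union (Set.finite_iUnion fun k => Set.toFinite _))
  · rintro e (he | ⟨r, hr, rfl⟩)
    · exact ax1_holds e he
    · intro x
      exact hr _
  · rintro e (he | ⟨r, hr, rfl⟩ | he)
    · exact ax2_holds f e he
    · intro x y
      exact hr _
    · obtain ⟨k, c, hc, rfl⟩ := Set.mem_iUnion.1 he
      intro x y
      simp only
      rw [eval_tm]
      exact hc _
  · intro e he
    let _ := grp1 hax1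
    let _ := mod1 hax1
    have h1 := sem1 (P1 := Q1 Γ₁) (by
      intro r hr z
      obtain ⟨z, rfl⟩ := mk1_surj Γ₁ z
      exact (mk1_eq Γ₁).2 (Der1.ax (.smul r (.var 0)) .zero (hann1 r hr) (fun _ => z))) e he
        (fun n => mk1 Γ₁ (.var n))
    rw [eval1_mk, eval1_mk, T1.subst_var, T1.subst_var] at h1
    exact (mk1_eq Γ₁).1 h1
  · intro e he
    let _ := grp1 hax1
    let _ := mod1 hax1
    let _ := grp2 (Γ₁ := Γ₁) hax2
    let _ := mod2 (Γ₁ := Γ₁) hax2
    have hlow : ∀ k ≤ K, ∀ c ∈ van RA RB hn f k, ∀ x : Fin k → Q1 Γ₁,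
        ev hn (opQ Γ₁ Γ₂) c x = 0 := by
      intro k hk c hc x
      choose σ hσ using fun j => mk1_surj Γ₁ (x j)
      have h2 := eval2_mk hax1 hax2 (fun m => if h : m < k then σ ⟨m, h⟩ else .zero) .var
        (tm hn c)
      rw [eval_tm] at h2
      have h3 : (fun j : Fin k => mk1 Γ₁ (if h : (j : ℕ) < k then σ ⟨j, h⟩ else .zero)) = x := by
        funext j
        rw [dif_pos j.2]
        exact hσ j
      rw [h3] at h2
      rw [h2]
      exact (mk2_eq Γ₁ Γ₂).2 (Der2.ax (tm hn c) .zero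
        (htm k hk c hc) _ .var)
    have h1 := sem2 hn f (P1 := Q1 Γ₁) (P2 := Q2 Γ₁ Γ₂) (opQ Γ₁ Γ₂) (by
      intro r hr z
      obtain ⟨z, rfl⟩ := mk2_surj Γ₁ Γ₂ z
      exact (mk2_eq Γ₁ Γ₂).2 (Der2.ax (.smul r (.var 0)) .zero (hann2 r hr) .var (fun _ => z)))
      (by
        intro l c hc x
        exact ev_closure hn _ hlow c (hK l hc) x) e he (fun n => mk1 Γ₁ (.var n)) (fun n => mk2 Γ₁ Γ₂ (.var n))
    rw [eval2_mk, eval2_mk, T2.subst_var, T2.subst_var] at h1
    exact (mk2_eq Γ₁ Γ₂).1 h1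

end Pool.Agent.Results.MP_2f8e94_al.FiniteBasis
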